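import Mathlib

/-!
Sets of positive integers of small multiplicative rank, and integers all of whose pairs are
multiplicatively dependent.
-/

set_option autoImplicit false

namespace Pool.Agent.TH675.FB

open Finset Module

/-- the vector of the exponents of the primes -/
noncomputable def vec (n : ℕ) : ℕ →₀ ℚ :=
  Finsupp.mapRange.addMonoidHom (Nat.castAddMonoidHom ℚ) n.factorization

theorem vec_apply (n p : ℕ) : vec n p = (n.factorization p : ℚ) := by
  simp [vec]

theorem vec_prod_pow {r : ℕ} (n : Fin r → ℕ) (hn : ∀ i, n i ≠ 0) (k : Fin r → ℕ) :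
    vec (∏ i, n i ^ k i) = ∑ i, k i • vec (n i) := by
  unfold vec
  rw [Nat.factorization_prod (fun i _ => pow_ne_zero _ (hn i)), map_sum]
  refine Finset.sum_congr rfl fun i _ => ?_
  rw [Nat.factorization_pow, map_nsmul]

theorem vec_inj {m n : ℕ} (hm : m ≠ 0) (hn : n ≠ 0) (h : vec m = vec n) : m = n := by
  apply Nat.eq_of_factorization_eq hm hn
  intro p
  have h1 := congrArg (fun f => f p) h
  simp only [vec_apply] at h1
  exact_mod_cast h1

theorem indep_logs {r : ℕ} (n : Fin r → ℕ) (hn : ∀ i, n i ≠ 0)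
    (h : LinearIndependent ℚ fun i => vec (n i)) :
    LinearIndependent ℚ fun i => Real.log (n i) := by
  rw [← LinearIndependent.iff_fractionRing ℤ ℚ] at h ⊢
  rw [Fintype.linearIndependent_iff] at h ⊢
  intro g hg
  apply h g
  set a := ∏ i, n i ^ (g i).toNat with ha
  set b := ∏ i, n i ^ (-g i).toNat with hb
  have hgi : ∀ i, ((g i).toNat : ℤ) - ((-g i).toNat : ℤ) = g i := fun i => by
    rw [Int.toNat_eq_max, Int.toNat_eq_max]
    rcases le_total 0 (g i) with h0 | h0
    · rw [max_eq_left h0, max_eq_right (by linarith)]; ring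
    · rw [max_eq_right h0, max_eq_left (by linarith)]; ring
  have ha0 : a ≠ 0 := Finset.prod_ne_zero_iff.2 fun i _ => pow_ne_zero _ (hn i)
  have hb0 : b ≠ 0 := Finset.prod_ne_zero_iff.2 fun i _ => pow_ne_zero _ (hn i)
  have hla : Real.log a = ∑ i, ((g i).toNat : ℝ) * Real.log (n i) := by
    rw [ha]; push_cast
    rw [Real.log_prod (fun i _ => pow_ne_zero _ (by exact_mod_cast hn i))]
    exact Finset.sum_congr rfl fun i _ => Real.log_pow _ _
  have hlb : Real.log b = ∑ i, ((-g i).toNat : ℝ) * Real.log (n i) := by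
    rw [hb]; push_cast
    rw [Real.log_prod (fun i _ => pow_ne_zero _ (by exact_mod_cast hn i))]
    exact Finset.sum_congr rfl fun i _ => Real.log_pow _ _
  have hab : Real.log a = Real.log b := by
    rw [← sub_eq_zero, hla, hlb, ← Finset.sum_sub_distrib, ← hg]
    refine Finset.sum_congr rfl fun i _ => ?_
    rw [← sub_mul, zsmul_eq_mul]
    congr 1
    exact_mod_cast hgi i
  have hab2 : a = b := by
    have h2 := Real.log_injOn_pos (Set.mem_Ioi.2 (by exact_mod_cast Nat.pos_of_ne_zero ha0))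
      (Set.mem_Ioi.2 (by exact_mod_cast Nat.pos_of_ne_zero hb0)) hab
    exact_mod_cast h2
  have h3 : vec a = vec b := by rw [hab2]
  rw [ha, hb, vec_prod_pow n hn, vec_prod_pow n hn] at h3
  have h4 : ∑ i, g i • vec (n i) = ∑ i, (g i).toNat • vec (n i) -
      ∑ i, (-g i).toNat • vec (n i) := by
    rw [← Finset.sum_sub_distrib]
    refine Finset.sum_congr rfl fun i _ => ?_
    rw [← natCast_zsmul, ← natCast_zsmul, ← sub_smul, hgi]
  rw [h4, h3, sub_self]

theorem fac_le_log {n N p : ℕ} (hn : n ≠ 0) (hN : n ≤ N) : n.factorization p ≤ Nat.log 2 N := by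
  by_cases hp : p.Prime
  · apply Nat.le_log_of_pow_le (by norm_num)
    calc 2 ^ n.factorization p ≤ p ^ n.factorization p := Nat.pow_le_pow_left hp.two_le _
      _ ≤ n := Nat.ordProj_le p hn
      _ ≤ N := hN
  · rw [Nat.factorization_eq_zero_of_not_prime _ hp]; exact Nat.zero_le _

/-- A set of integers in `[1, N]` which does not contain `r + 1` multiplicatively independent
elements has at most `(log₂ N + 1) ^ r` elements. -/
theorem count {S : Finset ℕ} {N r : ℕ} (hS : ∀ n ∈ S, n ≠ 0 ∧ n ≤ N)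
    (h : ∀ f : Fin (r + 1) → ℕ, (∀ i, f i ∈ S) →
      ¬ LinearIndependent ℚ (fun i => Real.log (f i))) :
    S.card ≤ (Nat.log 2 N + 1) ^ r := by
  classical
  set V : Submodule ℚ (ℕ →₀ ℚ) := Submodule.span ℚ (vec '' (S : Set ℕ)) with hV
  have hfin : (vec '' (S : Set ℕ)).Finite := S.finite_toSet.image _
  have : FiniteDimensional ℚ V := FiniteDimensional.span_of_finite ℚ hfin
  -- the dimension
  have hdim : finrank ℚ V ≤ r := by
    by_contra hcon
    push Not at hcon
    obtain ⟨b, hb1, hb2, hb3⟩ := exists_linearIndependent ℚ (vec '' (S : Set ℕ))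
    have hbf : b.Finite := hfin.subset hb1
    have : Fintype b := hbf.fintype
    have hcard : finrank ℚ V = Fintype.card b := by
      rw [hV, ← hb2]
      have h9 := finrank_span_set_eq_card hb3
      rw [h9, Set.toFinset_card]
    rw [hcard] at hcon
    obtain ⟨e⟩ : Nonempty (Fin (r + 1) ↪ b) := by
      apply Function.Embedding.nonempty_of_card_le
      rw [Fintype.card_fin]; omega
    have hch : ∀ i, ∃ n ∈ S, vec n = (e i : ℕ →₀ ℚ) := fun i => by
      obtain ⟨n, hn, hn2⟩ := hb1 (e i).2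
      exact ⟨n, hn, hn2⟩
    choose f hf1 hf2 using hch
    apply h f hf1
    apply indep_logs f (fun i => (hS _ (hf1 i)).1)
    have h5 : (fun i => vec (f i)) = (fun x : b => (x : ℕ →₀ ℚ)) ∘ e := by
      funext i; exact hf2 i
    rw [h5]
    exact hb3.comp _ e.injective
  -- functionals
  let φ : ℕ → Module.Dual ℚ V := fun p => (Finsupp.lapply p).comp V.subtype
  obtain ⟨b, hb1, hb2, hb3⟩ := exists_linearIndependent ℚ (Set.range φ)
  have : Fintype b := hb3.setFinite.fintype
  have hcb : Fintype.card b ≤ r := by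
    have h1 := hb3.fintype_card_le_finrank
    rw [Subspace.dual_finrank_eq] at h1
    refine le_trans (le_of_eq ?_) (h1.trans hdim)
    exact Fintype.card_congr (Equiv.refl _)
  choose pr hpr using fun x : b => hb1 x.2
  let F : ℕ → (b → Fin (Nat.log 2 N + 1)) := fun n x =>
    ⟨min (n.factorization (pr x)) (Nat.log 2 N), by omega⟩
  have hinj : Set.InjOn F S := by
    intro m hm n hn hmn
    have hm1 := hS m hm
    have hn1 := hS n hn
    have hmV : vec m ∈ V := Submodule.subset_span ⟨m, hm, rfl⟩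
    have hnV : vec n ∈ V := Submodule.subset_span ⟨n, hn, rfl⟩
    let w : V := ⟨vec m, hmV⟩ - ⟨vec n, hnV⟩
    have hw : ∀ x ∈ b, x w = 0 := by
      intro x hx
      have h1 : x = φ (pr ⟨x, hx⟩) := (hpr ⟨x, hx⟩).symm
      have h2 := congrArg (fun G : b → Fin (Nat.log 2 N + 1) => ((G ⟨x, hx⟩ : Fin _) : ℕ)) hmn
      simp only [F] at h2
      rw [min_eq_left (fac_le_log hm1.1 hm1.2), min_eq_left (fac_le_log hn1.1 hn1.2)] at h2
      rw [h1]
      show (vec m - vec n : ℕ →₀ ℚ) (pr ⟨x, hx⟩) = 0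
      rw [Finsupp.sub_apply, vec_apply, vec_apply, h2, sub_self]
    have hw2 : ∀ x ∈ Submodule.span ℚ b, x w = 0 := by
      intro x hx
      induction hx using Submodule.span_induction with
      | mem x hx => exact hw x hx
      | zero => rfl
      | add x y _ _ hx hy => rw [LinearMap.add_apply, hx, hy, add_zero]
      | smul a x _ hx => rw [LinearMap.smul_apply, hx, smul_zero]
    apply vec_inj hm1.1 hn1.1
    ext p
    have h3 := hw2 (φ p) (by rw [hb2]; exact Submodule.subset_span ⟨p, rfl⟩)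
    have h4 : (vec m - vec n : ℕ →₀ ℚ) p = 0 := h3
    rw [Finsupp.sub_apply, sub_eq_zero] at h4
    exact h4
  calc S.card ≤ (Finset.univ : Finset (b → Fin (Nat.log 2 N + 1))).card :=
        Finset.card_le_card_of_injOn F (fun _ _ => Finset.mem_univ _) hinj
    _ = (Nat.log 2 N + 1) ^ Fintype.card b := by
        rw [Finset.card_univ, Fintype.card_fun, Fintype.card_fin]
    _ ≤ (Nat.log 2 N + 1) ^ r := Nat.pow_le_pow_right (by omega) hcb

/-- Integers any two of which are multiplicatively dependent are powers of one integer. -/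
theorem one_base (p : ℕ → Prop) (hp : ∀ n, p n → 2 ≤ n)
    (h : ∀ m n, p m → p n → ∃ a b : ℕ, 1 ≤ a ∧ 1 ≤ b ∧ m ^ a = n ^ b) :
    ∃ g : ℕ, 2 ≤ g ∧ ∀ n, p n → ∃ k : ℕ, n = g ^ k := by
  classical
  by_cases h0 : ∃ n, p n
  swap
  · exact ⟨2, le_rfl, fun n hn => absurd ⟨n, hn⟩ h0⟩
  obtain ⟨n₀, hn₀⟩ := h0
  have hex : ∃ g, 2 ≤ g ∧ ∃ a b : ℕ, 1 ≤ a ∧ 1 ≤ b ∧ g ^ a = n₀ ^ b :=
    ⟨n₀, hp _ hn₀, 1, 1, le_rfl, le_rfl, rfl⟩
  obtain ⟨hg2, a₀, b₀, ha₀, hb₀, hg⟩ := Nat.find_spec hex
  set g := Nat.find hex with hgdef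
  refine ⟨g, hg2, fun n hn => ?_⟩
  obtain ⟨a, b, ha, hb, hab⟩ := h n n₀ hn hn₀
  -- n ^ A = g ^ B
  have hAB : n ^ (a * b₀) = g ^ (a₀ * b) := by
    rw [pow_mul, hab, pow_mul g, hg, ← pow_mul, ← pow_mul, mul_comm]
  set A := a * b₀ with hA
  set B := a₀ * b with hB
  have hA1 : 1 ≤ A := Nat.mul_pos ha hb₀
  set k := B / A with hk
  have hkA : k * A ≤ B := Nat.div_mul_le_self B A
  have hdvd : g ^ k ∣ n := by
    rw [← Nat.pow_dvd_pow_iff (by omega : A ≠ 0), ← pow_mul, hAB]
    exact pow_dvd_pow _ hkA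
  obtain ⟨c, hc⟩ := hdvd
  have hgpos : 0 < g := by omega
  have hcA : c ^ A = g ^ (B - k * A) := by
    have h1 : g ^ (k * A) * c ^ A = g ^ (k * A) * g ^ (B - k * A) := by
      rw [← pow_add, Nat.add_sub_cancel' hkA, ← hAB, hc, mul_pow, ← pow_mul]
    exact Nat.eq_of_mul_eq_mul_left (pow_pos hgpos _) h1
  rcases Nat.eq_zero_or_pos (B - k * A) with hz | hz
  · rw [hz, pow_zero] at hcA
    have : c = 1 := by
      rcases Nat.pow_eq_one.1 hcA with h1 | h1
      · exact h1
      · omega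
    exact ⟨k, by rw [hc, this, mul_one]⟩
  · exfalso
    have hlt : B - k * A < A := by
      have h1 := Nat.div_add_mod' B A
      rw [← hk] at h1
      have h2 := Nat.mod_lt B (by omega : 0 < A)
      omega
    have hcg : c < g := by
      have h1 : c ^ A < g ^ A := by
        rw [hcA]; exact Nat.pow_lt_pow_right (by omega) hlt
      exact lt_of_pow_lt_pow_left₀ A (by omega) h1
    have hc2 : 2 ≤ c := by
      by_contra hcon
      have h3 : c ^ A ≤ 1 := by
        calc c ^ A ≤ 1 ^ A := Nat.pow_le_pow_left (by omega) _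
          _ = 1 := one_pow _
      have h4 : 1 < g ^ (B - k * A) := Nat.one_lt_pow (by omega) (by omega)
      omega
    refine Nat.find_min hex hcg ⟨hc2, A * a₀, (B - k * A) * b₀, ?_, ?_, ?_⟩
    · exact Nat.mul_pos hA1 ha₀
    · exact Nat.mul_pos hz hb₀
    · rw [pow_mul, hcA, ← pow_mul, mul_comm (B - k * A) a₀, pow_mul, hg, ← pow_mul, mul_comm b₀]

end Pool.Agent.TH675.FB
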