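import Pool.Agent.TH577.PP.Pi
import Pool.Agent.TH675.FB.Count

/-!
Logarithms `l` of algebraic numbers such that `z l` is a linear form in logarithms for some
transcendental `z` of a given space `P`.
-/

set_option autoImplicit false

namespace Pool.Agent.TH675.FB

open Module Polynomial
open Pool.Agent.H301R2.SSE (QB mem_QB Lt Lt_mul Lt_alg Lt_log Lt_one)
open Pool.Agent.TH577.PP

theorem lin_single (P : Submodule QB ℂ) {r : ℕ} (l : Fin r → ℂ) (j : Fin r) (x : P) :
    lin P l (Pi.single j x) = (x : ℂ) * l j := by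
  rw [lin_apply, Finset.sum_eq_single j]
  · rw [Pi.single_eq_same]
  · intro i _ hij
    rw [Pi.single_eq_of_ne hij]
    simp
  · intro h
    exact absurd (Finset.mem_univ j) h

theorem rank_bound (P : Submodule QB ℂ) [FiniteDimensional QB P] (h1 : (1 : ℂ) ∈ P) {r : ℕ}
    (l : Fin r → ℂ) (hl : ∀ j, IsAlgebraic ℚ (Complex.exp (l j))) (hli : LinearIndependent ℚ l)
    (z : Fin r → ℂ) (hz1 : ∀ j, z j ∈ P) (hz2 : ∀ j, Transcendental ℚ (z j))
    (hz3 : ∀ j, z j * l j ∈ Lt) :
    r + finrank QB (P ⊓ Lt : Submodule QB ℂ) ≤ finrank QB P * (finrank QB P - 1) + 1 := by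
  have hc := core P l hl hli h1
  let v : Fin r ⊕ Fin r → Submodule.comap (lin P l) Lt := fun s =>
    Sum.elim (fun j => ⟨Pi.single j ⟨z j, hz1 j⟩, by
        rw [Submodule.mem_comap, lin_single]; exact hz3 j⟩)
      (fun j => ⟨Pi.single j ⟨1, h1⟩, by
        rw [Submodule.mem_comap, lin_single]
        show (1 : ℂ) * l j ∈ Lt
        rw [one_mul]
        exact Lt_log (hl j)⟩) s
  have hv : LinearIndependent QB v := by
    rw [Fintype.linearIndependent_iff]
    intro g hg
    have hg2 := congrArg (fun y : Submodule.comap (lin P l) Lt => (y : Fin r → P)) hg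
    rw [Fintype.sum_sum_type] at hg2
    simp only [Submodule.coe_add, Submodule.coe_sum, Submodule.coe_smul, v, Sum.elim_inl,
      Sum.elim_inr, Submodule.coe_zero] at hg2
    have key : ∀ j, (g (Sum.inl j) : ℂ) * z j + (g (Sum.inr j) : ℂ) = 0 := by
      intro j
      have h2 := congrFun hg2 j
      simp only [Pi.add_apply, Finset.sum_apply, Pi.smul_apply, Pi.zero_apply] at h2
      rw [Finset.sum_eq_single j, Finset.sum_eq_single j, Pi.single_eq_same, Pi.single_eq_same] at h2
      · have h3 := congrArg (fun y : P => (y : ℂ)) h2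
        simp only [Submodule.coe_add, Submodule.coe_smul, Algebra.smul_def, Submodule.coe_zero,
          mul_one] at h3
        exact h3
      · intro i _ hij
        rw [Pi.single_eq_of_ne (Ne.symm hij), smul_zero]
      · intro h; exact absurd (Finset.mem_univ j) h
      · intro i _ hij
        rw [Pi.single_eq_of_ne (Ne.symm hij), smul_zero]
      · intro h; exact absurd (Finset.mem_univ j) h
    have k1 : ∀ j, g (Sum.inl j) = 0 := by
      intro j
      by_contra hne
      apply hz2 j
      have hne2 : (g (Sum.inl j) : ℂ) ≠ 0 := by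
        intro h; apply hne; exact_mod_cast h
      have e : z j = -(g (Sum.inr j) : ℂ) / (g (Sum.inl j) : ℂ) := by
        rw [eq_div_iff hne2]
        linear_combination key j
      rw [e, div_eq_mul_inv]
      exact ((mem_QB.mp (g (Sum.inr j)).2).neg).mul (mem_QB.mp (g (Sum.inl j)).2).inv
    intro s
    rcases s with j | j
    · exact k1 j
    · have h4 := key j
      rw [k1 j] at h4
      simp only [ZeroMemClass.coe_zero, zero_mul, zero_add] at h4
      exact_mod_cast h4
  have h5 := hv.fintype_card_le_finrank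
  rw [Fintype.card_sum, Fintype.card_fin] at h5
  omega

/-- The integers `n ≤ N` such that `n ^ z` is algebraic for some transcendental `z ∈ P`. -/
theorem main_count (P : Submodule QB ℂ) [FiniteDimensional QB P] (h1 : (1 : ℂ) ∈ P) (N e : ℕ)
    (he : finrank QB P * (finrank QB P - 1) + 1 ≤ e + finrank QB (P ⊓ Lt : Submodule QB ℂ)) :
    {n : ℕ | 2 ≤ n ∧ n ≤ N ∧ ∃ z ∈ P, Transcendental ℚ z ∧
      IsAlgebraic ℚ ((n : ℂ) ^ z)}.ncard ≤ (Nat.log 2 N + 1) ^ e := by
  classical
  have hfin : {n : ℕ | 2 ≤ n ∧ n ≤ N ∧ ∃ z ∈ P, Transcendental ℚ z ∧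
      IsAlgebraic ℚ ((n : ℂ) ^ z)}.Finite :=
    (Set.finite_Icc 2 N).subset fun n hn => ⟨hn.1, hn.2.1⟩
  rw [Set.ncard_eq_toFinset_card _ hfin]
  apply count
  · intro n hn
    rw [Set.Finite.mem_toFinset] at hn
    exact ⟨by have := hn.1; omega, hn.2.1⟩
  · intro f hf hind
    have hf2 : ∀ i, 2 ≤ f i ∧ f i ≤ N ∧ ∃ z ∈ P, Transcendental ℚ z ∧
        IsAlgebraic ℚ ((f i : ℂ) ^ z) := fun i => by
      have := hf i
      rw [Set.Finite.mem_toFinset] at this
      exact this
    choose hf3 hf4 z hz1 hz2 hz3 using hf2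
    have hne : ∀ i, ((f i : ℕ) : ℂ) ≠ 0 := fun i => by
      have := hf3 i
      exact_mod_cast (by omega : f i ≠ 0)
    have hlog : ∀ i, ((Real.log (f i) : ℝ) : ℂ) = Complex.log (f i) := fun i => by
      rw [Complex.ofReal_log (Nat.cast_nonneg _), Complex.ofReal_natCast]
    have hli : LinearIndependent ℚ fun i => ((Real.log (f i) : ℝ) : ℂ) :=
      hind.map' ((IsScalarTower.toAlgHom ℚ ℝ ℂ).toLinearMap) (by
        rw [LinearMap.ker_eq_bot]
        exact Complex.ofReal_injective)
    have hb := rank_bound P h1 (fun i => ((Real.log (f i) : ℝ) : ℂ)) ?_ hli z hz1 hz2 ?_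
    · omega
    · intro i
      simp only [hlog]
      rw [Complex.exp_log (hne i)]
      exact isAlgebraic_natCast (f i)
    · intro i
      simp only [hlog]
      apply Lt_log
      have h6 := hz3 i
      rw [Complex.cpow_def_of_ne_zero (hne i)] at h6
      rwa [mul_comm]

end Pool.Agent.TH675.FB
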